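import Mathlib

namespace Pool.Agent.P.MP_9f4f5e_mp

open Real

/-- finite sums of Gaussians: entries are (exponent, coefficient) -/
noncomputable def ev (l : List (ℕ × ℕ)) (s : ℝ) : ℝ :=
  (l.map fun t => (t.2 : ℝ) * Real.exp (-(t.1 : ℝ) * s)).sum

def ins (t : ℕ × ℕ) : List (ℕ × ℕ) → List (ℕ × ℕ)
  | [] => [t]
  | u :: l => if t.1 = u.1 then (u.1, t.2 + u.2) :: l else u :: ins t l

def mulOne (t : ℕ × ℕ) : List (ℕ × ℕ) → List (ℕ × ℕ) → List (ℕ × ℕ)
  | [], acc => acc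
  | u :: l, acc => ins (t.1 + u.1, t.2 * u.2) (mulOne t l acc)

def mul : List (ℕ × ℕ) → List (ℕ × ℕ) → List (ℕ × ℕ)
  | [], _ => []
  | t :: l, m => mulOne t m (mul l m)

lemma ev_nil (s : ℝ) : ev [] s = 0 := by simp [ev]

lemma ev_cons (t : ℕ × ℕ) (l : List (ℕ × ℕ)) (s : ℝ) :
    ev (t :: l) s = (t.2 : ℝ) * Real.exp (-(t.1 : ℝ) * s) + ev l s := by simp [ev]

lemma ev_ins (t : ℕ × ℕ) (l : List (ℕ × ℕ)) (s : ℝ) :
    ev (ins t l) s = (t.2 : ℝ) * Real.exp (-(t.1 : ℝ) * s) + ev l s := by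
  induction l with
  | nil => simp [ins, ev]
  | cons u l ih =>
    unfold ins
    split_ifs with h
    · rw [ev_cons, ev_cons, h]; push_cast; ring
    · rw [ev_cons, ev_cons, ih]; ring

lemma ev_mulOne (t : ℕ × ℕ) (m acc : List (ℕ × ℕ)) (s : ℝ) :
    ev (mulOne t m acc) s = (t.2 : ℝ) * Real.exp (-(t.1 : ℝ) * s) * ev m s + ev acc s := by
  induction m with
  | nil => simp [mulOne, ev]
  | cons u l ih =>
    unfold mulOne
    rw [ev_ins, ih, ev_cons]
    have : Real.exp (-((t.1 + u.1 : ℕ) : ℝ) * s)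
        = Real.exp (-(t.1 : ℝ) * s) * Real.exp (-(u.1 : ℝ) * s) := by
      rw [← Real.exp_add]; congr 1; push_cast; ring
    simp only [this]; push_cast; ring

lemma ev_mul (l m : List (ℕ × ℕ)) (s : ℝ) : ev (mul l m) s = ev l s * ev m s := by
  induction l with
  | nil => simp [mul, ev]
  | cons t l ih => unfold mul; rw [ev_mulOne, ih, ev_cons]; ring

lemma ev_nonneg (l : List (ℕ × ℕ)) (s : ℝ) : 0 ≤ ev l s := by
  induction l with
  | nil => simp [ev]
  | cons t l ih => rw [ev_cons]; positivity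

/-- Newton iteration with fuel -/
def newton (x : ℕ) : ℕ → ℕ → ℕ
  | 0, g => g
  | n + 1, g => if (g + x / g) / 2 < g then newton x n ((g + x / g) / 2) else g

def isq (x : ℕ) : ℕ := newton x 200 (2 ^ (x.log2 / 2 + 1))

def sqDown (x : ℕ) : ℕ := if isq x * isq x ≤ x then isq x else 0

def sqUp (x : ℕ) : ℕ := if x ≤ (isq x + 1) * (isq x + 1) then isq x + 1 else x

lemma sqDown_le (x : ℕ) : (sqDown x : ℝ) ≤ √(x : ℝ) := by
  unfold sqDown
  split_ifs with h
  · apply Real.le_sqrt_of_sq_le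
    rw [sq]; exact_mod_cast h
  · simp

lemma le_sqUp (x : ℕ) : √(x : ℝ) ≤ (sqUp x : ℝ) := by
  unfold sqUp
  split_ifs with h
  · rw [Real.sqrt_le_left (by positivity), sq]; exact_mod_cast h
  · rw [Real.sqrt_le_left (by positivity)]
    exact_mod_cast Nat.le_self_pow (by norm_num) x

/-- entries (c, m, d) stand for c * sqrt m / d ^ 2 -/
noncomputable def val (L : List (ℕ × ℕ × ℕ)) : ℝ :=
  (L.map fun t => (t.1 : ℝ) * √(t.2.1 : ℝ) / (t.2.2 : ℝ) ^ 2).sum

def up (S : ℕ) : List (ℕ × ℕ × ℕ) → ℕ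
  | [] => 0
  | t :: L => (t.1 * sqUp (t.2.1 * (S * S)) / (t.2.2 * t.2.2) + 1) + up S L

def down (S : ℕ) : List (ℕ × ℕ × ℕ) → ℕ
  | [] => 0
  | t :: L => (t.1 * sqDown (t.2.1 * (S * S)) / (t.2.2 * t.2.2)) + down S L

lemma sqrt_scale (m S : ℕ) : √((m * (S * S) : ℕ) : ℝ) = √(m : ℝ) * S := by
  push_cast
  rw [Real.sqrt_mul (by positivity), Real.sqrt_mul_self (by positivity)]

lemma val_nonneg (L : List (ℕ × ℕ × ℕ)) : 0 ≤ val L := by
  apply List.sum_nonneg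
  intro x hx
  obtain ⟨t, -, rfl⟩ := List.mem_map.1 hx
  positivity

lemma val_le_up (S : ℕ) (L : List (ℕ × ℕ × ℕ)) : val L * S ≤ up S L := by
  induction L with
  | nil => simp [val, up]
  | cons t L ih =>
    have h1 : val (t :: L) = (t.1 : ℝ) * √(t.2.1 : ℝ) / (t.2.2 : ℝ) ^ 2 + val L := by simp [val]
    rw [h1, add_mul]
    unfold up
    rw [Nat.cast_add]
    refine add_le_add ?_ ih
    rcases Nat.eq_zero_or_pos t.2.2 with h0 | h0
    · simp [h0]
    · have h2 := le_sqUp (t.2.1 * (S * S))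
      rw [sqrt_scale] at h2
      set q := sqUp (t.2.1 * (S * S))
      have hd : 0 < t.2.2 * t.2.2 := Nat.mul_pos h0 h0
      have h3 : t.1 * q < (t.1 * q / (t.2.2 * t.2.2) + 1) * (t.2.2 * t.2.2) := by
        have := Nat.lt_div_mul_add (a := t.1 * q) hd
        rw [add_mul, one_mul]; exact this
      have h4 : ((t.1 * q : ℕ) : ℝ) ≤ ((t.1 * q / (t.2.2 * t.2.2) + 1 : ℕ) : ℝ) * (t.2.2 : ℝ) ^ 2 := by
        rw [sq]; exact_mod_cast h3.le
      have hd' : (0 : ℝ) < (t.2.2 : ℝ) ^ 2 := by positivity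
      rw [div_mul_eq_mul_div, div_le_iff₀ hd']
      refine le_trans ?_ h4
      push_cast
      rw [mul_assoc]
      exact mul_le_mul_of_nonneg_left h2 (by positivity)

lemma down_le_val (S : ℕ) (L : List (ℕ × ℕ × ℕ)) : (down S L : ℝ) ≤ val L * S := by
  induction L with
  | nil => simp [val, down]
  | cons t L ih =>
    have h1 : val (t :: L) = (t.1 : ℝ) * √(t.2.1 : ℝ) / (t.2.2 : ℝ) ^ 2 + val L := by simp [val]
    rw [h1, add_mul]
    unfold down
    rw [Nat.cast_add]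
    refine add_le_add ?_ ih
    have h2 := sqDown_le (t.2.1 * (S * S))
    rw [sqrt_scale] at h2
    set q := sqDown (t.2.1 * (S * S))
    refine le_trans Nat.cast_div_le ?_
    rw [div_mul_eq_mul_div, sq]
    push_cast
    refine div_le_div_of_nonneg_right ?_ (by positivity)
    rw [mul_assoc]
    exact mul_le_mul_of_nonneg_left h2 (by positivity)

noncomputable def val2 (f : ℕ × ℕ → ℕ × ℕ → ℕ × ℕ × ℕ) (l m : List (ℕ × ℕ)) : ℝ :=
  (l.map fun t => val (m.map (f t))).sum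

def up2 (S : ℕ) (f : ℕ × ℕ → ℕ × ℕ → ℕ × ℕ × ℕ) (m : List (ℕ × ℕ)) : List (ℕ × ℕ) → ℕ
  | [] => 0
  | t :: l => up S (m.map (f t)) + up2 S f m l

def down2 (S : ℕ) (f : ℕ × ℕ → ℕ × ℕ → ℕ × ℕ × ℕ) (m : List (ℕ × ℕ)) : List (ℕ × ℕ) → ℕ
  | [] => 0
  | t :: l => down S (m.map (f t)) + down2 S f m l

lemma val2_nonneg (f : ℕ × ℕ → ℕ × ℕ → ℕ × ℕ × ℕ) (l m : List (ℕ × ℕ)) : 0 ≤ val2 f l m := by
  apply List.sum_nonneg
  intro x hx
  obtain ⟨t, -, rfl⟩ := List.mem_map.1 hx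
  exact val_nonneg _

lemma val2_cons (f : ℕ × ℕ → ℕ × ℕ → ℕ × ℕ × ℕ) (t : ℕ × ℕ) (l m : List (ℕ × ℕ)) :
    val2 f (t :: l) m = val (m.map (f t)) + val2 f l m := by simp [val2]

lemma val2_le_up2 (S : ℕ) (f : ℕ × ℕ → ℕ × ℕ → ℕ × ℕ × ℕ) (l m : List (ℕ × ℕ)) :
    val2 f l m * S ≤ up2 S f m l := by
  induction l with
  | nil => simp [val2, up2]
  | cons t l ih =>
    rw [val2_cons, add_mul]; unfold up2; rw [Nat.cast_add]
    exact add_le_add (val_le_up _ _) ih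

lemma down2_le_val2 (S : ℕ) (f : ℕ × ℕ → ℕ × ℕ → ℕ × ℕ × ℕ) (l m : List (ℕ × ℕ)) :
    (down2 S f m l : ℝ) ≤ val2 f l m * S := by
  induction l with
  | nil => simp [val2, down2]
  | cons t l ih =>
    rw [val2_cons, add_mul]; unfold down2; rw [Nat.cast_add]
    exact add_le_add (down_le_val _ _) ih

def fN (t u : ℕ × ℕ) : ℕ × ℕ × ℕ := (t.2 * u.2, t.1 + u.1, t.1 + u.1)
def fT (t u : ℕ × ℕ) : ℕ × ℕ × ℕ := (t.2 * u.2, t.1 * u.1, t.1 + u.1)

def p1 : List (ℕ × ℕ) := [(699, 10), (214, 24), (57, 23), (11, 15), (1, 8)]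

def p3 : List (ℕ × ℕ) :=
  [(1399, 2400), (914, 11520), (429, 13824), (757, 11040), (272, 26496), (115, 12696),
   (711, 7200), (226, 17280), (69, 16560), (23, 5400), (701, 1920), (216, 4608), (59, 4416),
   (13, 2880), (3, 512), (1409, 4500), (924, 21600), (439, 25920), (767, 20700), (282, 49680),
   (125, 23805), (721, 6750), (236, 16200), (79, 15525), (33, 3375), (1455, 6900),
   (970, 33120), (485, 39744), (813, 15870), (328, 38088), (171, 12167), (1612, 7200),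
   (1127, 17280), (642, 13824), (2097, 1000)]

def p4 : List (ℕ × ℕ) :=
  [(2796, 10000), (2311, 96000), (1826, 345600), (2154, 92000), (1669, 662400), (1512, 317400),
   (2108, 60000), (1623, 432000), (1466, 414000), (1420, 135000), (2098, 32000),
   (1613, 230400), (1456, 220800), (1410, 144000), (1400, 38400), (1341, 552960),
   (1184, 1589760), (1027, 1523520), (1138, 1036800), (981, 1987200), (935, 648000),
   (1128, 552960), (971, 1059840), (925, 691200), (915, 184320), (856, 331776), (699, 1271808),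
   (542, 1828224), (653, 829440), (496, 2384640), (450, 777600), (643, 442368), (486, 1271808),
   (440, 829440), (430, 221184), (870, 486680), (824, 952200), (778, 621000), (814, 507840),
   (768, 662400), (758, 176640), (385, 1168032), (339, 2285280), (293, 1490400),
   (329, 1218816), (283, 1589760), (273, 423936), (228, 279841), (182, 730020), (136, 714150),
   (172, 389344), (126, 761760), (116, 203136), (732, 135000), (722, 216000), (712, 115200),
   (247, 324000), (237, 518400), (227, 276480), (90, 310500), (80, 496800), (70, 264960),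
   (44, 50625), (34, 108000), (24, 86400), (702, 20480), (217, 49152), (60, 47104),
   (14, 30720), (4, 4096)]

lemma p3_eq : mul p1 (mul p1 p1) = p3 := by decide +kernel
lemma p4_eq : mul (mul p1 p1) (mul p1 p1) = p4 := by decide +kernel

lemma ev_p3 (s : ℝ) : ev p3 s = ev p1 s ^ 3 := by
  rw [← p3_eq, ev_mul, ev_mul]; ring

lemma ev_p4 (s : ℝ) : ev p4 s = ev p1 s ^ 4 := by
  rw [← p4_eq, ev_mul, ev_mul]; ring

lemma p3_pos : ∀ t ∈ p3, 0 < t.1 := by decide +kernel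
lemma p4_pos : ∀ t ∈ p4, 0 < t.1 := by decide +kernel

def SS : ℕ := 10 ^ 12

lemma key : 64 * up2 SS fT p3 p3 ^ 3 * up2 SS fN p3 p3 * 10 ^ 12
    ≤ 29191 ^ 3 * down2 SS fN p4 p4 ^ 3 * SS := by decide +kernel

lemma down3_pos : 0 < down2 SS fN p3 p3 := by decide +kernel
lemma down4_pos : 0 < down2 SS fN p4 p4 := by decide +kernel

lemma key_aux (a b c S : ℝ) (A B C : ℝ) (ha : 0 ≤ a) (hb : 0 ≤ b) (hC : 0 ≤ C) (hS : 0 < S)
    (h1 : a * S ≤ A) (h2 : b * S ≤ B) (h3 : C ≤ c * S)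
    (h4 : 64 * A ^ 3 * B * 10 ^ 12 ≤ 29191 ^ 3 * C ^ 3 * S) :
    64 * a ^ 3 * b ≤ 2.9191 ^ 3 * c ^ 3 := by
  have hA : 0 ≤ A := le_trans (by positivity) h1
  have h7 : 64 * (a * S) ^ 3 * (b * S) * 10 ^ 12 ≤ 29191 ^ 3 * (c * S) ^ 3 * S := by
    calc _ ≤ 64 * A ^ 3 * B * 10 ^ 12 := by gcongr
      _ ≤ _ := h4
      _ ≤ _ := by gcongr
  have h8 : (64 * a ^ 3 * b) * (10 ^ 12 * S ^ 4)
      ≤ (2.9191 ^ 3 * c ^ 3) * (10 ^ 12 * S ^ 4) := by
    calc _ = 64 * (a * S) ^ 3 * (b * S) * 10 ^ 12 := by ring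
      _ ≤ _ := h7
      _ = _ := by ring
  exact le_of_mul_le_mul_right h8 (by positivity)

lemma SS_pos : (0 : ℝ) < SS := by norm_num [SS]

lemma key_real : 64 * val2 fT p3 p3 ^ 3 * val2 fN p3 p3 ≤ 2.9191 ^ 3 * val2 fN p4 p4 ^ 3 :=
  key_aux _ _ _ SS _ _ _ (val2_nonneg _ _ _) (val2_nonneg _ _ _) (Nat.cast_nonneg _) SS_pos
    (val2_le_up2 SS fT p3 p3) (val2_le_up2 SS fN p3 p3) (down2_le_val2 SS fN p4 p4)
    (by exact_mod_cast key)

lemma val3_pos : 0 < val2 fN p3 p3 :=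
  pos_of_mul_pos_left (lt_of_lt_of_le (Nat.cast_pos.2 down3_pos) (down2_le_val2 SS fN p3 p3))
    SS_pos.le

lemma val4_pos : 0 < val2 fN p4 p4 :=
  pos_of_mul_pos_left (lt_of_lt_of_le (Nat.cast_pos.2 down4_pos) (down2_le_val2 SS fN p4 p4))
    SS_pos.le

end Pool.Agent.P.MP_9f4f5e_mp
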