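import Pool.Agent.P.MP_9f4f5e_mp.Arith

namespace Pool.Agent.P.MP_9f4f5e_mp

open Real MeasureTheory Set
open scoped FourierTransform

abbrev E := EuclideanSpace ℝ (Fin 3)

lemma int_list {α : Type*} (L : List α) (f : α → E → ℝ) (h : ∀ t ∈ L, Integrable (f t)) :
    Integrable (fun x => (L.map fun t => f t x).sum) ∧
      ∫ x, (L.map fun t => f t x).sum = (L.map fun t => ∫ x, f t x).sum := by
  induction L with
  | nil => simp
  | cons t L ih =>
    have h1 := h t (by simp)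
    obtain ⟨h2, h3⟩ := ih fun u hu => h u (by simp [hu])
    simp only [List.map_cons, List.sum_cons]
    exact ⟨h1.add h2, by rw [integral_add h1 h2, h3]⟩

lemma gaussC_integrable {b : ℝ} (hb : 0 < b) :
    Integrable (fun v : E => Complex.exp (-(b : ℂ) * (‖v‖ : ℂ) ^ 2)) := by
  have := GaussianFourier.integrable_cexp_neg_mul_sq_norm_add (V := E) (b := (b : ℂ))
    (by simpa using hb) 0 0
  simpa using this

lemma gauss_integrable {b : ℝ} (hb : 0 < b) :
    Integrable (fun v : E => Real.exp (-b * ‖v‖ ^ 2)) := by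
  have := (gaussC_integrable hb).norm
  refine this.congr (Filter.Eventually.of_forall fun v => ?_)
  simp only
  rw [show (-(b : ℂ) * (‖v‖ : ℂ) ^ 2) = ((-b * ‖v‖ ^ 2 : ℝ) : ℂ) by push_cast; ring,
    Complex.norm_exp_ofReal]

lemma rpow_three_half {b : ℝ} (hb : 0 < b) :
    (π / b) ^ ((3 : ℝ) / 2) = π * √π * (√b / b ^ 2) := by
  have h1 : (π / b) ^ ((3 : ℝ) / 2) = (π / b) * √(π / b) := by
    rw [Real.sqrt_eq_rpow, show (3 : ℝ) / 2 = 1 + 1 / 2 by norm_num,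
      Real.rpow_add (by positivity), Real.rpow_one]
  rw [h1, Real.sqrt_div pi_pos.le]
  have hs : 0 < √b := Real.sqrt_pos.2 hb
  have h2 : √b * √b = b := Real.mul_self_sqrt hb.le
  field_simp
  rw [sq, h2]

lemma gauss_integral {b : ℝ} (hb : 0 < b) :
    ∫ v : E, Real.exp (-b * ‖v‖ ^ 2) = π * √π * (√b / b ^ 2) := by
  rw [GaussianFourier.integral_rexp_neg_mul_sq_norm hb, ← rpow_three_half hb]
  simp

lemma ngauss_integrable {b : ℝ} (hb : 0 < b) :
    Integrable (fun v : E => ‖v‖ * Real.exp (-b * ‖v‖ ^ 2)) := by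
  have := (integrable_fun_norm_addHaar (volume : Measure E)
    (f := fun y : ℝ => y * Real.exp (-b * y ^ 2))).2 (by
      have h := integrableOn_rpow_mul_exp_neg_mul_sq hb (s := 3) (by norm_num)
      refine h.congr_fun (fun y _ => ?_) measurableSet_Ioi
      simp only [finrank_euclideanSpace_fin, smul_eq_mul]
      rw [show (3 : ℝ) = ((3 : ℕ) : ℝ) by norm_num, Real.rpow_natCast]; ring)
  exact this

lemma ngauss_integral {b : ℝ} (hb : 0 < b) :
    ∫ v : E, ‖v‖ * Real.exp (-b * ‖v‖ ^ 2) = 2 * π / b ^ 2 := by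
  rw [integral_fun_norm_addHaar (volume : Measure E) (fun y : ℝ => y * Real.exp (-b * y ^ 2))]
  have h := integral_rpow_mul_exp_neg_mul_rpow (p := 2) (q := 3) (b := b) (by norm_num)
    (by norm_num) hb
  have h2 : ∫ y in Ioi (0 : ℝ), y ^ (Module.finrank ℝ E - 1) • (y * Real.exp (-b * y ^ 2))
      = ∫ x in Ioi (0 : ℝ), x ^ (3 : ℝ) * Real.exp (-b * x ^ (2 : ℝ)) := by
    refine setIntegral_congr_fun measurableSet_Ioi (fun y _ => ?_)
    simp only [finrank_euclideanSpace_fin, smul_eq_mul]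
    rw [show (3 : ℝ) = ((3 : ℕ) : ℝ) by norm_num, Real.rpow_natCast, Real.rpow_two]; ring
  rw [h2, h]
  have h3 : (volume : Measure E).real (Metric.ball 0 1) = π * 4 / 3 := by
    rw [Measure.real, EuclideanSpace.volume_ball_fin_three]
    simp
    positivity
  rw [h3, show (-((3 : ℝ) + 1) / 2) = -((2 : ℕ) : ℝ) by norm_num, Real.rpow_neg hb.le,
    Real.rpow_natCast, show ((3 : ℝ) + 1) / 2 = 2 by norm_num, Real.Gamma_two]
  simp only [finrank_euclideanSpace_fin, smul_eq_mul, nsmul_eq_mul]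
  push_cast
  field_simp
  ring

lemma list_mul_list {α : Type*} (l m : List α) (f g : α → ℝ) :
    (l.map f).sum * (m.map g).sum = (l.map fun t => (m.map fun u => f t * g u).sum).sum := by
  rw [← List.sum_map_mul_right]
  congr 1
  apply List.map_congr_left
  intro t _
  rw [List.sum_map_mul_left]

lemma int_list2 {α : Type*} (l m : List α) (F : α → α → E → ℝ)
    (h : ∀ t ∈ l, ∀ u ∈ m, Integrable (F t u)) :
    Integrable (fun x => (l.map fun t => (m.map fun u => F t u x).sum).sum) ∧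
      ∫ x, (l.map fun t => (m.map fun u => F t u x).sum).sum
        = (l.map fun t => (m.map fun u => ∫ x, F t u x).sum).sum := by
  obtain ⟨h1, h2⟩ := int_list l (fun t x => (m.map fun u => F t u x).sum)
    (fun t ht => (int_list m (F t) (h t ht)).1)
  refine ⟨h1, h2.trans ?_⟩
  congr 1
  apply List.map_congr_left
  intro t ht
  exact (int_list m (F t) (h t ht)).2

lemma val2_eq (f : ℕ × ℕ → ℕ × ℕ → ℕ × ℕ × ℕ) (l m : List (ℕ × ℕ)) (c : ℝ) :
    c * val2 f l m = (l.map fun t => (m.map fun u =>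
      c * (((f t u).1 : ℝ) * √((f t u).2.1 : ℝ) / ((f t u).2.2 : ℝ) ^ 2)).sum).sum := by
  unfold val2 val
  rw [← List.sum_map_mul_left]
  congr 1
  apply List.map_congr_left
  intro t _
  rw [List.map_map, ← List.sum_map_mul_left]
  rfl

lemma sq_int (l : List (ℕ × ℕ)) (hl : ∀ t ∈ l, 0 < t.1) :
    Integrable (fun x : E => ev l (‖x‖ ^ 2) ^ 2) ∧
      ∫ x : E, ev l (‖x‖ ^ 2) ^ 2 = π * √π * val2 fN l l := by
  have hF : ∀ x : E, ev l (‖x‖ ^ 2) ^ 2 = (l.map fun t => (l.map fun u =>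
      ((t.2 : ℝ) * u.2) * Real.exp (-((t.1 : ℝ) + u.1) * ‖x‖ ^ 2)).sum).sum := by
    intro x
    rw [sq, ev, list_mul_list]
    congr 1
    apply List.map_congr_left
    intro t _
    congr 1
    apply List.map_congr_left
    intro u _
    rw [show -((t.1 : ℝ) + u.1) * ‖x‖ ^ 2 = -(t.1 : ℝ) * ‖x‖ ^ 2 + -(u.1 : ℝ) * ‖x‖ ^ 2 by ring,
      Real.exp_add]; ring
  simp_rw [hF]
  have hp : ∀ t ∈ l, ∀ u ∈ l, (0 : ℝ) < (t.1 : ℝ) + u.1 := fun t ht u hu => by
    have := hl t ht; positivity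
  obtain ⟨h1, h2⟩ := int_list2 l l
    (fun t u x => ((t.2 : ℝ) * u.2) * Real.exp (-((t.1 : ℝ) + u.1) * ‖x‖ ^ 2))
    (fun t ht u hu => (gauss_integrable (hp t ht u hu)).const_mul _)
  refine ⟨h1, h2.trans ?_⟩
  rw [val2_eq]
  congr 1
  apply List.map_congr_left
  intro t ht
  congr 1
  apply List.map_congr_left
  intro u hu
  rw [integral_const_mul, gauss_integral (hp t ht u hu)]
  simp only [fN]
  push_cast
  ring

/-- Fourier side -/
noncomputable def fv (l : List (ℕ × ℕ)) (s : ℝ) : ℝ :=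
  (l.map fun t => (t.2 : ℝ) * (π * √π * (√(t.1 : ℝ) / (t.1 : ℝ) ^ 2))
    * Real.exp (-(π ^ 2 / t.1) * s)).sum

lemma evC_integrable (l : List (ℕ × ℕ)) (hl : ∀ t ∈ l, 0 < t.1) :
    Integrable (fun x : E => ((ev l (‖x‖ ^ 2) : ℝ) : ℂ)) := by
  apply Integrable.ofReal
  exact (int_list l (fun t x => (t.2 : ℝ) * Real.exp (-(t.1 : ℝ) * ‖x‖ ^ 2))
    (fun t ht => (gauss_integrable (by have := hl t ht; positivity)).const_mul _)).1

lemma fourier_add' {f g : E → ℂ} (hf : Integrable f) (hg : Integrable g) (w : E) :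
    𝓕 (fun x => f x + g x) w = 𝓕 f w + 𝓕 g w := by
  simp only [Real.fourier_eq, smul_add]
  rw [integral_add]
  · exact (Real.fourierIntegral_convergent_iff w).2 hf
  · exact (Real.fourierIntegral_convergent_iff w).2 hg

lemma fourier_cmul (c : ℂ) (f : E → ℂ) (w : E) :
    𝓕 (fun x => c * f x) w = c * 𝓕 f w := by
  simp only [Real.fourier_eq']
  rw [← integral_const_mul]
  congr 1; ext v; simp only [smul_eq_mul]; ring

lemma fourier_ev (l : List (ℕ × ℕ)) (hl : ∀ t ∈ l, 0 < t.1) (w : E) :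
    𝓕 (fun x : E => ((ev l (‖x‖ ^ 2) : ℝ) : ℂ)) w = ((fv l (‖w‖ ^ 2) : ℝ) : ℂ) := by
  induction l with
  | nil => simp [ev, fv, Real.fourier_eq]
  | cons t l ih =>
    have ht : (0 : ℝ) < t.1 := by have := hl t (by simp); positivity
    have hl' : ∀ u ∈ l, 0 < u.1 := fun u hu => hl u (by simp [hu])
    have e1 : (fun x : E => ((ev (t :: l) (‖x‖ ^ 2) : ℝ) : ℂ)) = fun x : E =>
        (t.2 : ℂ) * Complex.exp (-((t.1 : ℝ) : ℂ) * (‖x‖ : ℂ) ^ 2) + ((ev l (‖x‖ ^ 2) : ℝ) : ℂ) := by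
      ext x; rw [ev_cons]; push_cast; ring
    rw [e1, fourier_add' ((gaussC_integrable ht).const_mul _) (evC_integrable l hl'), ih hl',
      fourier_cmul, fourier_gaussian_innerProductSpace (by simpa using ht)]
    have e2 : fv (t :: l) (‖w‖ ^ 2) = (t.2 : ℝ) * (π * √π * (√(t.1 : ℝ) / (t.1 : ℝ) ^ 2))
      * Real.exp (-(π ^ 2 / t.1) * ‖w‖ ^ 2) + fv l (‖w‖ ^ 2) := by simp [fv]
    rw [e2, ← rpow_three_half ht]
    have e3 : ((π : ℂ) / ((t.1 : ℝ) : ℂ)) ^ ((Module.finrank ℝ E : ℂ) / 2)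
        = (((π / t.1) ^ ((3 : ℝ) / 2) : ℝ) : ℂ) := by
      rw [Complex.ofReal_cpow (by positivity)]
      simp
    rw [e3]
    push_cast
    rw [show (-(π : ℂ) ^ 2 * (‖w‖ : ℂ) ^ 2 / (t.1 : ℂ)) = -((π : ℂ) ^ 2 / t.1) * (‖w‖ : ℂ) ^ 2 by
      ring]
    ring

lemma kin_int (l : List (ℕ × ℕ)) (hl : ∀ t ∈ l, 0 < t.1) :
    Integrable (fun x : E => ‖x‖ * fv l (‖x‖ ^ 2) ^ 2) ∧
      ∫ x : E, ‖x‖ * fv l (‖x‖ ^ 2) ^ 2 = 2 * val2 fT l l := by
  have hF : ∀ x : E, ‖x‖ * fv l (‖x‖ ^ 2) ^ 2 = (l.map fun t => (l.map fun u =>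
      (((t.2 : ℝ) * (π * √π * (√(t.1 : ℝ) / (t.1 : ℝ) ^ 2))) *
        ((u.2 : ℝ) * (π * √π * (√(u.1 : ℝ) / (u.1 : ℝ) ^ 2)))) *
        (‖x‖ * Real.exp (-(π ^ 2 / t.1 + π ^ 2 / u.1) * ‖x‖ ^ 2))).sum).sum := by
    intro x
    rw [sq (fv l _), fv, list_mul_list, ← List.sum_map_mul_left]
    congr 1
    apply List.map_congr_left
    intro t _
    rw [← List.sum_map_mul_left]
    congr 1
    apply List.map_congr_left
    intro u _
    rw [show -(π ^ 2 / t.1 + π ^ 2 / u.1) * ‖x‖ ^ 2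
      = -(π ^ 2 / t.1) * ‖x‖ ^ 2 + -(π ^ 2 / u.1) * ‖x‖ ^ 2 by ring, Real.exp_add]; ring
  simp_rw [hF]
  have hp : ∀ t ∈ l, ∀ u ∈ l, (0 : ℝ) < π ^ 2 / t.1 + π ^ 2 / u.1 := fun t ht u hu => by
    have := hl t ht; have := hl u hu; have := pi_pos; positivity
  obtain ⟨h1, h2⟩ := int_list2 l l
    (fun t u x => (((t.2 : ℝ) * (π * √π * (√(t.1 : ℝ) / (t.1 : ℝ) ^ 2))) *
        ((u.2 : ℝ) * (π * √π * (√(u.1 : ℝ) / (u.1 : ℝ) ^ 2)))) *
        (‖x‖ * Real.exp (-(π ^ 2 / t.1 + π ^ 2 / u.1) * ‖x‖ ^ 2)))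
    (fun t ht u hu => (ngauss_integrable (hp t ht u hu)).const_mul _)
  refine ⟨h1, h2.trans ?_⟩
  rw [val2_eq]
  congr 1
  apply List.map_congr_left
  intro t ht
  congr 1
  apply List.map_congr_left
  intro u hu
  rw [integral_const_mul, ngauss_integral (hp t ht u hu)]
  simp only [fT]
  push_cast
  have h3 : (0 : ℝ) < t.1 := by have := hl t ht; positivity
  have h4 : (0 : ℝ) < u.1 := by have := hl u hu; positivity
  rw [Real.sqrt_mul h3.le]
  have h5 : √π * √π = π := Real.mul_self_sqrt pi_pos.le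
  have h6 := pi_pos
  field_simp
  rw [sq √π, h5]
  ring

end Pool.Agent.P.MP_9f4f5e_mp
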